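import Mathlib
import Pool.Agent.Helper58.FX.Defs2

set_option autoImplicit false
open MeasureTheory Filter Topology Helper17.LevelSets Helper91.TTT
open scoped ComplexConjugate ENNReal ComplexOrder

/-! CV-7: finitely many ergodic functions with a given period. -/

namespace Helper66.FX
open Helper58.FX

lemma fourier_zpow (n k : ℤ) (x : Helper58.FX.Tor) :
    ((fourier n x : ℂ)) ^ k = (fourier (n * k) x : ℂ) := by
  rw [fourier_apply, fourier_apply, ← Circle.coe_zpow, ← AddCircle.toCircle_zsmul,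
    mul_comm, mul_smul]

lemma inv_uu {f : ℤ → ℂ} (hf : IPD f) {L : ℕ} (p : Fin L × Fin L) (n : ℤ) :
    f (n * uu p) = f n := by
  unfold uu
  have a2 : ∀ (i : ℕ) (j : ℤ), f (j * 2 ^ i) = f j := by
    intro i
    induction i with
    | zero => intro j; simp
    | succ i ih => intro j; rw [pow_succ, show j * (2 ^ i * 2) = 2 * (j * 2 ^ i) by ring,
        hf.two, ih]
  have a3 : ∀ (i : ℕ) (j : ℤ), f (j * 3 ^ i) = f j := by
    intro i
    induction i with
    | zero => intro j; simp
    | succ i ih => intro j; rw [pow_succ, show j * (3 ^ i * 3) = 3 * (j * 3 ^ i) by ring,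
        hf.three, ih]
  rw [← mul_assoc, a3, a2]

lemma continuous_hh (n : ℤ) (L : ℕ) :
    Continuous (fun x : Helper58.FX.Tor => hh L (fourier n x : ℂ)) := by
  have : (fun x : Helper58.FX.Tor => hh L (fourier n x : ℂ)) =
      fun x => (1 / (L : ℂ) ^ 2) * ∑ p : Fin L × Fin L, (fourier (n * uu p) x : ℂ) := by
    funext x
    unfold hh
    simp only [fourier_zpow]
  rw [this]
  exact continuous_const.mul (continuous_finsetSum _ fun p _ => (fourier _).continuous)

lemma integrable_of_cont (ν : Measure Helper58.FX.Tor) [IsProbabilityMeasure ν]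
    {E : Type*} [NormedAddCommGroup E] {g : Helper58.FX.Tor → E} (hg : Continuous g) :
    Integrable g ν :=
  hg.integrable_of_hasCompactSupport (HasCompactSupport.of_compactSpace g)

lemma int_hh {f : ℤ → ℂ} (hf : IPD f) {ν : Measure Helper58.FX.Tor} [IsProbabilityMeasure ν]
    (hν : ∀ n, ∫ x, (fourier n x : ℂ) ∂ν = f n) (n : ℤ) {L : ℕ} (hL : 0 < L) :
    ∫ x, hh L (fourier n x : ℂ) ∂ν = f n := by
  unfold hh
  rw [integral_const_mul, integral_finsetSum _ (fun p _ => by
    simp only [fourier_zpow]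
    exact integrable_of_cont ν (fourier _).continuous)]
  simp only [fourier_zpow, hν, inv_uu hf, Finset.sum_const, Finset.card_univ, Fintype.card_prod,
    Fintype.card_fin, nsmul_eq_mul]
  have : (L : ℂ) ≠ 0 := by exact_mod_cast hL.ne'
  push_cast
  field_simp

lemma int_normsq {f : ℤ → ℂ} {ν : Measure Helper58.FX.Tor} [IsProbabilityMeasure ν]
    (hν : ∀ n, ∫ x, (fourier n x : ℂ) ∂ν = f n) (n : ℤ) (L : ℕ) :
    ((∫ x, ‖hh L (fourier n x : ℂ)‖ ^ 2 ∂ν : ℝ) : ℂ) = EE (fun j => f (n * j)) L := by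
  rw [← integral_complex_ofReal]
  have : ∀ x : Helper58.FX.Tor, ((‖hh L (fourier n x : ℂ)‖ ^ 2 : ℝ) : ℂ) = (1 / (L : ℂ) ^ 4) *
      ∑ q : (Fin L × Fin L) × (Fin L × Fin L), (fourier (n * (uu q.1 - uu q.2)) x : ℂ) := by
    intro x
    rw [hh_normsq L _ (Helper91.TTT.norm_fourier_apply n x)]
    simp only [fourier_zpow]
  simp only [this]
  rw [integral_const_mul, integral_finsetSum _ (fun q _ =>
    integrable_of_cont ν (fourier _).continuous)]
  simp only [hν]
  rfl

lemma int_sub {f : ℤ → ℂ} (hf : IPD f) {ν : Measure Helper58.FX.Tor} [IsProbabilityMeasure ν]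
    (hν : ∀ n, ∫ x, (fourier n x : ℂ) ∂ν = f n) (n : ℤ) {L : ℕ} (hL : 0 < L) :
    ∫ x, ‖hh L (fourier n x : ℂ) - f n‖ ^ 2 ∂ν =
      (EE (fun j => f (n * j)) L).re - ‖f n‖ ^ 2 := by
  have e : ∀ x : Helper58.FX.Tor, ‖hh L (fourier n x : ℂ) - f n‖ ^ 2 =
      ‖hh L (fourier n x : ℂ)‖ ^ 2 - 2 * (hh L (fourier n x : ℂ) * conj (f n)).re +
        ‖f n‖ ^ 2 := by
    intro x
    rw [← Complex.normSq_eq_norm_sq, ← Complex.normSq_eq_norm_sq, ← Complex.normSq_eq_norm_sq,
      Complex.normSq_sub]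
    ring
  have hc := continuous_hh n L
  simp only [e]
  have i1 : Integrable (fun x : Helper58.FX.Tor => ‖hh L (fourier n x : ℂ)‖ ^ 2) ν :=
    integrable_of_cont ν (hc.norm.pow 2)
  have i2 : Integrable (fun x : Helper58.FX.Tor =>
      2 * (hh L (fourier n x : ℂ) * conj (f n)).re) ν :=
    integrable_of_cont ν (continuous_const.mul (Complex.continuous_re.comp
      (hc.mul continuous_const)))
  have i3 : Integrable (fun x : Helper58.FX.Tor => hh L (fourier n x : ℂ) * conj (f n)) ν :=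
    integrable_of_cont ν (hc.mul continuous_const)
  have i12 : Integrable (fun x : Helper58.FX.Tor => ‖hh L (fourier n x : ℂ)‖ ^ 2 -
      2 * (hh L (fourier n x : ℂ) * conj (f n)).re) ν := i1.sub i2
  rw [integral_add i12 (integrable_const _), integral_sub i1 i2, integral_const_mul]
  have h1 : ∫ x, (hh L (fourier n x : ℂ) * conj (f n)).re ∂ν = ‖f n‖ ^ 2 := by
    have : ∫ x, (hh L (fourier n x : ℂ) * conj (f n)).re ∂ν =
        (∫ x, hh L (fourier n x : ℂ) * conj (f n) ∂ν).re := by
      simpa using integral_re i3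
    rw [this, integral_mul_const, int_hh hf hν n hL, Complex.mul_conj,
      Complex.normSq_eq_norm_sq, Complex.ofReal_re]
  have h2 : ∫ x, ‖hh L (fourier n x : ℂ)‖ ^ 2 ∂ν = (EE (fun j => f (n * j)) L).re := by
    rw [← int_normsq hν n L, Complex.ofReal_re]
  rw [h1, h2]
  simp
  ring

/-- the averages at an atom tend to the value of the function -/
lemma atom_tendsto {f : ℤ → ℂ} (hf : IPD f) (hE : Erg f) {ν : Measure Helper58.FX.Tor}
    [IsProbabilityMeasure ν] (hν : ∀ n, ∫ x, (fourier n x : ℂ) ∂ν = f n)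
    {x : Helper58.FX.Tor} (hx : ν {x} ≠ 0) (n : ℤ) :
    Tendsto (fun L : ℕ => hh L (fourier n x : ℂ)) atTop (𝓝 (f n)) := by
  have hx' : 0 < ν.real {x} := by
    rw [measureReal_def]
    exact ENNReal.toReal_pos hx (measure_ne_top _ _)
  have hlim : Tendsto (fun L : ℕ => ((EE (fun j => f (n * j)) L).re - ‖f n‖ ^ 2) / ν.real {x})
      atTop (𝓝 0) := by
    have h1 := (Complex.continuous_re.tendsto _).comp (hE n)
    simp only [Complex.ofReal_re] at h1
    have h2 := (h1.sub_const (‖f n‖ ^ 2)).div_const (ν.real {x})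
    simpa using h2
  have hb : ∀ L : ℕ, 0 < L → ‖hh L (fourier n x : ℂ) - f n‖ ^ 2 ≤
      ((EE (fun j => f (n * j)) L).re - ‖f n‖ ^ 2) / ν.real {x} := by
    intro L hL
    rw [le_div_iff₀ hx', ← int_sub hf hν n hL]
    have hc := continuous_hh n L
    have i1 : Integrable (fun y : Helper58.FX.Tor => ‖hh L (fourier n y : ℂ) - f n‖ ^ 2) ν :=
      integrable_of_cont ν ((hc.sub continuous_const).norm.pow 2)
    calc ‖hh L (fourier n x : ℂ) - f n‖ ^ 2 * ν.real {x}
        = ∫ y in {x}, ‖hh L (fourier n y : ℂ) - f n‖ ^ 2 ∂ν := by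
          rw [Measure.restrict_singleton, integral_smul_measure, integral_dirac]
          simp [measureReal_def, mul_comm]
      _ ≤ _ := setIntegral_le_integral i1 (Eventually.of_forall fun y => by positivity)
  rw [tendsto_iff_norm_sub_tendsto_zero]
  have hsq : Tendsto (fun L : ℕ => ‖hh L (fourier n x : ℂ) - f n‖ ^ 2) atTop (𝓝 0) := by
    refine squeeze_zero' (Eventually.of_forall fun _ => by positivity) ?_ hlim
    filter_upwards [eventually_gt_atTop 0] with L hL using hb L hL
  have := hsq.sqrt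
  simpa [Real.sqrt_sq (norm_nonneg _)] using this

/-- a function of period `q` has an atom of order dividing `q` -/
lemma exists_atom {f : ℤ → ℂ} {ν : Measure Helper58.FX.Tor} [IsProbabilityMeasure ν]
    (hν : ∀ n, ∫ x, (fourier n x : ℂ) ∂ν = f n) {q : ℕ} (hq : 1 ≤ q) (h : f q = 1) :
    ∃ x ∈ {x : Helper58.FX.Tor | q • x = 0}, ν {x} ≠ 0 := by
  have hfin : {x : Helper58.FX.Tor | q • x = 0}.Finite := AddCircle.finite_torsion 1 hq
  have hre : ∫ x, (1 - ((fourier (q : ℤ) x : ℂ)).re) ∂ν = 0 := by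
    have i3 : Integrable (fun x : Helper58.FX.Tor => (fourier (q : ℤ) x : ℂ)) ν :=
      integrable_of_cont ν (fourier _).continuous
    have i5 : Integrable (fun x : Helper58.FX.Tor => ((fourier (q : ℤ) x : ℂ)).re) ν :=
      integrable_of_cont ν (Complex.continuous_re.comp (fourier _).continuous)
    rw [integral_sub (integrable_const _) i5]
    have : ∫ x, ((fourier (q : ℤ) x : ℂ)).re ∂ν = 1 := by
      have h1 : ∫ x, ((fourier (q : ℤ) x : ℂ)).re ∂ν = (∫ x, (fourier (q : ℤ) x : ℂ) ∂ν).re := by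
        simpa using integral_re i3
      rw [h1, hν, h, Complex.one_re]
    rw [this]
    simp
  have hnn : ∀ x : Helper58.FX.Tor, 0 ≤ 1 - ((fourier (q : ℤ) x : ℂ)).re := by
    intro x
    have := (Complex.re_le_norm (fourier (q : ℤ) x : ℂ))
    rw [Helper91.TTT.norm_fourier_apply] at this
    linarith
  have hae : ∀ᵐ x ∂ν, x ∈ {x : Helper58.FX.Tor | q • x = 0} := by
    have i4 : Integrable (fun x : Helper58.FX.Tor => 1 - ((fourier (q : ℤ) x : ℂ)).re) ν :=
      integrable_of_cont ν (continuous_const.sub (Complex.continuous_re.comp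
        (fourier _).continuous))
    have h1 := (integral_eq_zero_iff_of_nonneg hnn i4).1 hre
    filter_upwards [h1] with x hx
    have hx1 : ((fourier (q : ℤ) x : ℂ)).re = 1 := by
      have : 1 - ((fourier (q : ℤ) x : ℂ)).re = 0 := hx
      linarith
    have hx2 : (fourier (q : ℤ) x : ℂ) = 1 := by
      have hn := Helper91.TTT.norm_fourier_apply (q : ℤ) x
      have hsq : ((fourier (q : ℤ) x : ℂ)).re ^ 2 + ((fourier (q : ℤ) x : ℂ)).im ^ 2 = 1 := by
        have := Complex.normSq_eq_norm_sq (fourier (q : ℤ) x : ℂ)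
        rw [hn, Complex.normSq_apply] at this
        nlinarith
      rw [hx1] at hsq
      have him : ((fourier (q : ℤ) x : ℂ)).im = 0 := by nlinarith
      exact Complex.ext (by rw [hx1, Complex.one_re]) (by rw [him, Complex.one_im])
    rw [fourier_apply] at hx2
    have h3 : AddCircle.toCircle ((q : ℤ) • x) = AddCircle.toCircle (0 : Helper58.FX.Tor) := by
      rw [AddCircle.toCircle_zero]
      exact Circle.ext (by rw [hx2, Circle.coe_one])
    have h4 := AddCircle.injective_toCircle (T := (1 : ℝ)) one_ne_zero h3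
    simpa using h4
  by_contra hcon
  push Not at hcon
  have h0 : ν {x : Helper58.FX.Tor | q • x = 0} = 0 := by
    rw [← Set.biUnion_of_singleton {x : Helper58.FX.Tor | q • x = 0}]
    exact (measure_biUnion_null_iff hfin.countable).2 hcon
  have h1 : ν {x : Helper58.FX.Tor | q • x = 0}ᶜ = 0 := hae
  have h2 : ν Set.univ ≤ 0 := by
    rw [← Set.union_compl_self {x : Helper58.FX.Tor | q • x = 0}]
    exact (measure_union_le _ _).trans (by rw [h0, h1, add_zero])
  rw [measure_univ] at h2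
  simp at h2

/-- CV-7 -/
theorem finite_period {q : ℕ} (hq : 1 ≤ q) :
    {f : ℤ → ℂ | IPD f ∧ Erg f ∧ f q = 1}.Finite := by
  have hfin : {x : Helper58.FX.Tor | q • x = 0}.Finite := AddCircle.finite_torsion 1 hq
  refine (hfin.image (fun (x : Helper58.FX.Tor) (n : ℤ) =>
    limUnder atTop (fun L : ℕ => hh L (fourier n x : ℂ)))).subset ?_
  rintro f ⟨hf, hE, h1⟩
  obtain ⟨ν, hν1, hν⟩ := herglotz hf.pd hf.one
  obtain ⟨x, hx, hxν⟩ := exists_atom hν hq h1
  refine ⟨x, hx, ?_⟩
  funext n
  exact (atom_tendsto hf hE hν hxν n).limUnder_eq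

end Helper66.FX
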